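import Pool.Agent.LAT.StmtsC

set_option autoImplicit false

namespace Pool.Agent.LAT.H3

open Matrix

lemma abs_adj_le {m : ℕ} (G : Matrix (Fin m) (Fin m) ℤ) (X : ℤ) (hX : 1 ≤ X)
    (hG : ∀ i j, |G i j| ≤ X) (i j : Fin m) :
    |G.adjugate i j| ≤ (m.factorial : ℤ) * X ^ m := by
  rw [Matrix.adjugate_apply]
  have h := Matrix.det_le (A := G.updateRow j (Pi.single i 1)) (abv := AbsoluteValue.abs)
    (x := X) (fun a c => by
      rw [AbsoluteValue.abs_apply, Matrix.updateRow_apply]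
      split_ifs with h1
      · by_cases h2 : c = i
        · subst h2; simpa using hX
        · rw [Pi.single_eq_of_ne h2, abs_zero]; omega
      · exact hG a c)
  rw [AbsoluteValue.abs_apply, Fintype.card_fin, nsmul_eq_mul] at h
  exact h

/-- ROW BNY: the entries of `y` are bounded. -/
theorem bny (dsr : DsrStmt) : BnyStmt := by
  intro m B g y a b X hB ha hb hX hBb hg hG hy j
  obtain ⟨_, huniq, _⟩ := dsr m B g hB
  have hy0 : (-((B *ᵥ g) ᵥ* (GG B).adjugate)) ᵥ* GG B = -(GG B).det • (B *ᵥ g) := by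
    rw [Matrix.neg_vecMul, Matrix.vecMul_vecMul, Matrix.adjugate_mul, Matrix.vecMul_smul,
      Matrix.vecMul_one, neg_smul]
  have hyy : y = -((B *ᵥ g) ᵥ* (GG B).adjugate) := huniq _ _ hy hy0
  have hBg : ∀ i, |(B *ᵥ g) i| ≤ (m : ℤ) * b * a := by
    intro i
    have h1 : (B *ᵥ g) i = ∑ k, B i k * g k := rfl
    rw [h1]
    calc |∑ k, B i k * g k| ≤ ∑ k, |B i k * g k| := Finset.abs_sum_le_sum_abs _ _
      _ ≤ ∑ _k : Fin m, b * a := by
          apply Finset.sum_le_sum
          intro k _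
          rw [abs_mul]
          exact mul_le_mul (hBb i k) (hg k) (abs_nonneg _) (by omega)
      _ = (m : ℤ) * b * a := by
          rw [Finset.sum_const, Finset.card_univ, Fintype.card_fin, nsmul_eq_mul, mul_assoc]
  have h2 : y j = -∑ i, (B *ᵥ g) i * (GG B).adjugate i j := by
    rw [hyy]; rfl
  rw [h2, abs_neg]
  have hmba : (0 : ℤ) ≤ (m : ℤ) * b * a := by positivity
  calc |∑ i, (B *ᵥ g) i * (GG B).adjugate i j|
      ≤ ∑ i, |(B *ᵥ g) i * (GG B).adjugate i j| := Finset.abs_sum_le_sum_abs _ _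
    _ ≤ ∑ _i : Fin m, ((m : ℤ) * b * a) * ((m.factorial : ℤ) * X ^ m) := by
        apply Finset.sum_le_sum
        intro i _
        rw [abs_mul]
        exact mul_le_mul (hBg i) (abs_adj_le _ X hX hG i j) (abs_nonneg _) hmba
    _ = (m : ℤ) * (m * b * a) * ((m.factorial : ℤ) * X ^ m) := by
        rw [Finset.sum_const, Finset.card_univ, Fintype.card_fin, nsmul_eq_mul]; ring

end Pool.Agent.LAT.H3
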